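import Pool.Agent.helper83.OD.Spec

/-!
# Project od:, module V16: the coefficients of `f * vvx^16`.
-/

set_option autoImplicit false

open Finset PowerSeries

noncomputable section

namespace Pool.Agent.OD

open Pool.Agent.EP

open Classical in
theorem V16_c (hFRO : FRO_stmt) (hV1 : V1_stmt) (j : ℤ) : (vvx ^ 16).coeff j =
    if ∃ u : ℕ, u.Coprime 6 ∧ j = 16 * (u : ℤ) ^ 2 then 1 else 0 := by
  have h0 : vvx ^ 16 = vvx ^ (2 ^ 4) := by norm_num
  rw [h0, hFRO]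
  by_cases hd : (2 ^ 4 : ℤ) ∣ j
  · rw [if_pos hd, hV1]
    obtain ⟨c, rfl⟩ := hd
    rw [Int.mul_ediv_cancel_left _ (by norm_num)]
    by_cases h : ∃ u : ℕ, u.Coprime 6 ∧ c = (u : ℤ) ^ 2
    · rw [if_pos h, if_pos]
      obtain ⟨u, hu, rfl⟩ := h
      exact ⟨u, hu, by norm_num⟩
    · rw [if_neg h, if_neg]
      rintro ⟨u, hu, he⟩
      exact h ⟨u, hu, by norm_num at he; exact he⟩
  · rw [if_neg hd, if_neg]
    rintro ⟨u, hu, rfl⟩
    exact hd ⟨(u : ℤ) ^ 2, by norm_num⟩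

theorem V16 (hFRO : FRO_stmt) (hV1 : V1_stmt) : V16_stmt := by
  classical
  intro k f hf M
  rw [HahnSeries.coeff_mul]
  symm
  refine Finset.sum_bij_ne_zero (fun (u : ℕ) _ _ => ((M - 16 * (u : ℤ) ^ 2, 16 * (u : ℤ) ^ 2) : ℤ × ℤ))
    ?_ ?_ ?_ ?_
  · intro u hu hne
    rw [uu, Finset.mem_filter] at hu
    rw [Finset.mem_antidiagonal]
    refine ⟨?_, ?_, ?_⟩
    · rw [HahnSeries.mem_support]
      exact hne
    · rw [HahnSeries.mem_support, V16_c hFRO hV1, if_pos ⟨u, hu.2.1, rfl⟩]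
      exact one_ne_zero
    · ring
  · intro u hu _ u' hu' _ h
    have h1 : 16 * (u : ℤ) ^ 2 = 16 * (u' : ℤ) ^ 2 := (Prod.ext_iff.1 h).2
    have h2 : u ^ 2 = u' ^ 2 := by
      have : (u : ℤ) ^ 2 = (u' : ℤ) ^ 2 := by linarith
      exact_mod_cast this
    exact Nat.pow_left_injective (n := 2) (by norm_num) h2
  · rintro ⟨i, j⟩ hij hne
    rw [Finset.mem_antidiagonal] at hij
    obtain ⟨hi, hj, hs⟩ := hij
    rw [HahnSeries.mem_support] at hi
    rw [HahnSeries.mem_support, V16_c hFRO hV1] at hj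
    simp only at hs hi hj
    have hj' : ∃ u : ℕ, u.Coprime 6 ∧ j = 16 * (u : ℤ) ^ 2 := by
      by_contra h
      rw [if_neg h] at hj
      exact hj rfl
    obtain ⟨u, hu, rfl⟩ := hj'
    have hi2 : i = M - 16 * (u : ℤ) ^ 2 := by linarith
    subst hi2
    have hck : -(k : ℤ) ≤ M - 16 * (u : ℤ) ^ 2 := by
      by_contra h
      exact hi (hf _ (not_le.1 h))
    have hle : 16 * (u : ℤ) ^ 2 ≤ M + k := by linarith
    have hu0 : (0 : ℤ) ≤ u := Int.natCast_nonneg u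
    have hu1 : (u : ℤ) ≤ 16 * (u : ℤ) ^ 2 := by nlinarith
    refine ⟨u, ?_, ?_, rfl⟩
    · rw [uu, Finset.mem_filter, Finset.mem_range]
      refine ⟨?_, hu, ?_⟩
      · omega
      · zify
        rw [Int.toNat_of_nonneg (by nlinarith)]
        exact hle
    · exact hi
  · intro u hu hne
    rw [uu, Finset.mem_filter] at hu
    simp only
    rw [V16_c hFRO hV1, if_pos ⟨u, hu.2.1, rfl⟩, mul_one]

end Pool.Agent.OD
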